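import Pool.Agent.H754Z.TA.Str

set_option autoImplicit false

namespace Pool.Agent.H754Z.TA.P5

open MeasureTheory Filter Topology Pointwise

universe u

open Classical in
/-- extension of a Gleason seminorm from an open subgroup -/
theorem extend {G : Type u} [Group G] [TopologicalSpace G] [IsTopologicalGroup G]
    (H : Subgroup G) (hH : IsOpen (H : Set G)) {ν : H → ℝ} {C : ℝ} (h : IsGN ν C) :
    ∃ (ν' : G → ℝ) (C' : ℝ), IsGN ν' C' ∧
      ∀ x, ν' x ≤ 1 / C' → ∃ hx : x ∈ H, ν ⟨x, hx⟩ ≤ 1 / C := by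
  set ν' : G → ℝ := fun x => if hx : x ∈ H then min (ν ⟨x, hx⟩) 1 else 1 with hν'
  set C' : ℝ := max C 2 with hC'
  have c1 : C ≤ C' := le_max_left _ _
  have c2 : 2 ≤ C' := le_max_right _ _
  have c0 : 0 < C := lt_of_lt_of_le one_pos h.one_le
  have c3 : 1 / C' ≤ 1 / C := one_div_le_one_div_of_le c0 c1
  have c4 : 1 / C' < 1 := by
    rw [div_lt_one (by linarith)]
    linarith
  have yes : ∀ x : H, ν' x = min (ν x) 1 := fun x => by simp [hν']
  have no : ∀ x, x ∉ H → ν' x = 1 := fun x hx => by simp [hν', hx]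
  have le1 : ∀ x, ν' x ≤ 1 := by
    intro x
    by_cases hx : x ∈ H
    · rw [yes ⟨x, hx⟩]; exact min_le_right _ _
    · rw [no x hx]
  have nn : ∀ x, 0 ≤ ν' x := by
    intro x
    by_cases hx : x ∈ H
    · rw [yes ⟨x, hx⟩]; exact le_min (h.nonneg _) zero_le_one
    · rw [no x hx]; exact zero_le_one
  have small : ∀ x, ν' x ≤ 1 / C' → ∃ y : H, x = y ∧ ν' x = ν y := by
    intro x hx
    by_cases hxH : x ∈ H
    · refine ⟨⟨x, hxH⟩, rfl, ?_⟩
      have e := yes ⟨x, hxH⟩
      simp only at e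
      rw [e] at hx ⊢
      rcases le_total (ν ⟨x, hxH⟩) 1 with h1 | h1
      · exact min_eq_left h1
      · rw [min_eq_right h1] at hx
        linarith
    · rw [no x hxH] at hx
      linarith
  have hcont : Continuous ν' := by
    rw [continuous_iff_continuousAt]
    intro x
    by_cases hx : x ∈ H
    · have he : IsOpenEmbedding (Subtype.val : H → G) := hH.isOpenEmbedding_subtypeVal
      have := (he.continuousAt_iff (g := ν') (x := ⟨x, hx⟩)).1
      apply this
      have e : ν' ∘ (Subtype.val : H → G) = fun y => min (ν y) 1 := funext yes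
      rw [e]
      exact (h.cont.min continuous_const).continuousAt
    · have hc : IsOpen (H : Set G)ᶜ := (H.isClosed_of_isOpen hH).isOpen_compl
      refine (continuousAt_const (y := (1 : ℝ))).congr ?_
      filter_upwards [hc.mem_nhds hx] with y hy
      exact (no y hy).symm
  refine ⟨ν', C', ⟨⟨nn, ?_, ?_, ?_⟩, by linarith, hcont, ?_, ?_, ?_⟩, ?_⟩
  · have := yes 1
    rw [h.one] at this
    simpa using this
  · intro x
    by_cases hx : x ∈ H
    · have e1 := yes ⟨x, hx⟩
      have e2 := yes (⟨x, hx⟩⁻¹)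
      rw [h.inv] at e2
      exact e2.trans e1.symm
    · rw [no x hx, no x⁻¹ (fun hc => hx (by simpa using H.inv_mem hc))]
  · intro x y
    by_cases hx : x ∈ H
    · by_cases hy : y ∈ H
      · have e1 := yes ⟨x, hx⟩
        have e2 := yes ⟨y, hy⟩
        have e3 := yes (⟨x, hx⟩ * ⟨y, hy⟩)
        have e4 := h.mul ⟨x, hx⟩ ⟨y, hy⟩
        have e5 := h.nonneg ⟨x, hx⟩
        have e6 := h.nonneg ⟨y, hy⟩
        change ν' (x * y) = _ at e3
        change ν' x = _ at e1
        change ν' y = _ at e2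
        rw [e1, e2, e3]
        simp only [min_def]
        split_ifs <;> linarith
      · rw [no y hy]
        linarith [le1 (x * y), nn x]
    · rw [no x hx]
      linarith [le1 (x * y), nn y]
  · have hk : IsCompact ((Subtype.val : H → G) '' {y | ν y ≤ 1 / C}) :=
      h.cpt.image continuous_subtype_val
    refine hk.of_isClosed_subset (isClosed_le hcont continuous_const) ?_
    intro x hx
    obtain ⟨y, rfl, e⟩ := small x hx
    refine ⟨y, ?_, rfl⟩
    have : ν' y ≤ 1 / C' := hx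
    change ν y ≤ 1 / C
    linarith
  · intro g n hg
    rcases Nat.eq_zero_or_pos n with rfl | hn
    · have := nn (g ^ 0)
      simp only [Nat.cast_zero, zero_mul]
      exact mul_nonneg (by linarith) this
    · have n1 : (1 : ℝ) ≤ n := by exact_mod_cast hn
      have g1 : ν' g ≤ 1 / C' := le_trans (le_mul_of_one_le_left (nn g) n1) hg
      obtain ⟨y, rfl, e⟩ := small g g1
      rw [e] at hg ⊢
      have a1 := h.escape y n (hg.trans c3)
      have a2 := yes (y ^ n)
      rw [Subgroup.coe_pow] at a2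
      rw [a2]
      have a3 := h.nonneg (y ^ n)
      rcases le_total (ν (y ^ n)) 1 with h1 | h1
      · rw [min_eq_left h1]
        exact a1.trans (mul_le_mul_of_nonneg_right c1 a3)
      · rw [min_eq_right h1]
        linarith
  · intro g k hg hk
    obtain ⟨y, rfl, e1⟩ := small g hg
    obtain ⟨z, rfl, e2⟩ := small k hk
    rw [e1] at hg ⊢
    rw [e2] at hk ⊢
    have a1 := h.comm y z (hg.trans c3) (hk.trans c3)
    have a2 := yes (y⁻¹ * z⁻¹ * y * z)
    have a3 : ((y⁻¹ * z⁻¹ * y * z : H) : G) = (y : G)⁻¹ * (z : G)⁻¹ * y * z := by simp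
    rw [a3] at a2
    rw [a2]
    have a4 := h.nonneg y
    have a5 := h.nonneg z
    refine (min_le_left _ _).trans (a1.trans ?_)
    gcongr
  · intro x hx
    obtain ⟨y, rfl, e⟩ := small x hx
    refine ⟨y.2, ?_⟩
    change ν y ≤ 1 / C
    linarith

/-- pull back of a Gleason seminorm along a quotient by a compact normal subgroup -/
theorem pull {G : Type u} [Group G] [TopologicalSpace G] [IsTopologicalGroup G]
    (K : Subgroup G) [K.Normal] (hK : IsCompact (K : Set G)) {ν : G ⧸ K → ℝ} {C : ℝ}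
    (h : IsGN ν C) : IsGN (fun x : G => ν (x : G ⧸ K)) C := by
  have hp : IsProperMap (QuotientGroup.mk : G → G ⧸ K) := by
    rw [isProperMap_iff_isClosedMap_and_compact_fibers]
    refine ⟨QuotientGroup.continuous_mk, QuotientGroup.isClosedMap_coe hK, fun q => ?_⟩
    obtain ⟨x, rfl⟩ := QuotientGroup.mk_surjective q
    have e : (QuotientGroup.mk : G → G ⧸ K) ⁻¹' {(x : G ⧸ K)} = (fun k => x * k) '' (K : Set G) := by
      ext y
      simp only [Set.mem_preimage, Set.mem_singleton_iff, Set.mem_image, SetLike.mem_coe]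
      constructor
      · intro hy
        exact ⟨x⁻¹ * y, QuotientGroup.eq.1 hy.symm, by simp⟩
      · rintro ⟨k, hk, rfl⟩
        exact (QuotientGroup.eq.2 (by simpa using hk)).symm
    rw [e]
    exact hK.image (continuous_const.mul continuous_id)
  refine ⟨⟨fun x => h.nonneg _, ?_, fun x => ?_, fun x y => ?_⟩, h.one_le,
    h.cont.comp QuotientGroup.continuous_mk, hp.isCompact_preimage h.cpt, fun g n hg => ?_,
    fun g k hg hk => ?_⟩
  · simpa using h.one
  · simpa using h.inv _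
  · simpa using h.mul _ _
  · simpa using h.escape _ n hg
  · simpa using h.comm _ _ hg hk

theorem main {G : Type u} [Group G] [TopologicalSpace G] [IsTopologicalGroup G]
    [LocallyCompactSpace G] [T2Space G] (W : Set G) (hW : W ∈ 𝓝 (1 : G))
    (hnss : ∃ K : Subgroup G, IsCompact (K : Set G) ∧ (K : Set G) ⊆ interior W ∧
      (∀ᶠ g in 𝓝 (1 : G), ∀ k ∈ K, g * k * g⁻¹ ∈ K) ∧
      ∃ O : Set G, IsOpen O ∧ (K : Set G) ⊆ O ∧ ∀ S : Subgroup G, (S : Set G) ⊆ O → S ≤ K)
    (hgn : ∀ {Q : Type u} [Group Q] [TopologicalSpace Q] [IsTopologicalGroup Q]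
      [LocallyCompactSpace Q] [T2Space Q] (O : Set Q) (_ : O ∈ 𝓝 (1 : Q))
      (_ : ∀ S : Subgroup Q, (S : Set Q) ⊆ O → S = ⊥) (W : Set Q) (_ : W ∈ 𝓝 (1 : Q)),
      ∃ (ν : Q → ℝ) (C : ℝ), IsGN ν C ∧ ∀ x, ν x ≤ 1 / C → x ∈ W) :
    ∃ (ν : G → ℝ) (C : ℝ), IsGN ν C ∧ ∀ x, ν x ≤ 1 / C → x ∈ W := by
  obtain ⟨K, hKc, hKW, hKn, O, hOo, hKO, hO⟩ := hnss
  set H : Subgroup G := Subgroup.normalizer (K : Set G) with hH
  have hHo : IsOpen (H : Set G) := by
    have hinv : Tendsto (fun g : G => g⁻¹) (𝓝 1) (𝓝 1) := by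
      simpa using continuous_inv.tendsto (1 : G)
    refine H.isOpen_of_mem_nhds (g := 1) ?_
    filter_upwards [hKn, hinv.eventually hKn] with g h1 h2
    change g ∈ Subgroup.normalizer (K : Set G)
    rw [Subgroup.mem_normalizer_iff]
    intro k
    refine ⟨h1 k, fun hk => ?_⟩
    have := h2 _ hk
    simpa [mul_assoc] using this
  haveI : LocallyCompactSpace H := hHo.locallyCompactSpace
  set K' : Subgroup H := K.subgroupOf H with hK'
  haveI : K'.Normal := Subgroup.normal_in_normalizer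
  have hK'c : IsCompact (K' : Set H) := by
    have hce : IsClosedEmbedding (Subtype.val : H → G) :=
      (H.isClosed_of_isOpen hHo).isClosedEmbedding_subtypeVal
    exact hce.isCompact_preimage hKc
  haveI : IsClosed (K' : Set H) := hK'c.isClosed
  set Z : Set H := (Subtype.val : H → G) ⁻¹' (O ∩ interior W) with hZ
  have hZo : IsOpen Z := (hOo.inter isOpen_interior).preimage continuous_subtype_val
  set OQ : Set (H ⧸ K') := ((QuotientGroup.mk : H → H ⧸ K') '' Zᶜ)ᶜ with hOQ
  have hOQo : IsOpen OQ :=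
    (QuotientGroup.isClosedMap_coe hK'c _ hZo.isClosed_compl).isOpen_compl
  have hback : ∀ x : H, (x : H ⧸ K') ∈ OQ → (x : G) ∈ O ∩ interior W := by
    intro x hx
    by_contra hc
    exact hx ⟨x, hc, rfl⟩
  have h1 : OQ ∈ 𝓝 (1 : H ⧸ K') := by
    refine hOQo.mem_nhds ?_
    rintro ⟨x, hx, e⟩
    have hxK : x ∈ K' := (QuotientGroup.eq_one_iff x).1 e
    have hxK' : (x : G) ∈ K := Subgroup.mem_subgroupOf.1 hxK
    exact hx ⟨hKO hxK', hKW hxK'⟩
  obtain ⟨ν, C, hν, hball⟩ := hgn OQ h1 (fun S hS => by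
    have hle := hO ((S.comap (QuotientGroup.mk' K')).map H.subtype) (by
      rintro _ ⟨x, hx, rfl⟩
      exact (hback x (hS hx)).1)
    rw [eq_bot_iff]
    intro q hq
    obtain ⟨x, rfl⟩ := QuotientGroup.mk_surjective q
    have : (x : G) ∈ K := hle ⟨x, hq, rfl⟩
    exact Subgroup.mem_bot.2 ((QuotientGroup.eq_one_iff x).2 (Subgroup.mem_subgroupOf.2 this)))
    OQ h1
  obtain ⟨ν', C', h1', h2'⟩ := extend H hHo (pull K' hK'c hν)
  refine ⟨ν', C', h1', fun x hx => ?_⟩
  obtain ⟨hxH, hx'⟩ := h2' x hx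
  exact interior_subset (hback ⟨x, hxH⟩ (hball _ hx')).2

end Pool.Agent.H754Z.TA.P5
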